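import Mathlib
import Pool.Agent.Helper81.QuasiDisj.Defs
import Pool.Agent.Helper81.QuasiDisj.Base

/-!
# Quasi-disjointness from ergodic systems versus from itself

The definitions are in `Pool/Agent/Helper81/QuasiDisj/Defs.lean`.  The helper file `Base` also shows
that the Kronecker sets form a `σ`-algebra (`kroneckerAlgebra`, `measurableSet_kron_iff`) and that the
Kronecker subspace is exactly `L²` of it (`kroneckerSpace_eq`).
-/

namespace Pool.Agent.Results.MP_e732b6_an.SelfQuasiDisjoint

open Pool.Agent.Helper81.QuasiDisj

universe u v

/-- A `G`-system is quasi-disjoint from every ergodic `G`-system if and only if it is quasi-disjoint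
from itself. -/
theorem result (G : Type v) [Group G] (S : GSystem.{u, v} G) :
    (∀ T : GSystem.{u, v} G, T.IsErgodic → QuasiDisjoint S T) ↔ QuasiDisjoint S S :=
  main G S

end Pool.Agent.Results.MP_e732b6_an.SelfQuasiDisjoint
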